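import Pool.Agent.V11197.PP.Bound

set_option autoImplicit false

/-!
Signs in the power product expansion of the partition function: if
`Σ p(n) x^n = ∏_{k ≥ 1} (1 + n_k x^k)` then for every `k ≥ 1` the numbers `n_{8k+2}`, `n_{8k+4}`,
`n_{8k+6}` are negative and `n_{8k}` is positive.
-/

open PowerSeries
open scoped PowerSeries.WithPiTopology

namespace Pool.Agent.Results.MP_f3871b_nt.SignPattern

/-- The generating function `Σ p(m) x^m` of the partition numbers. -/
noncomputable def partitionSeries : ℤ⟦X⟧ :=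
  PowerSeries.mk fun m => (Fintype.card (Nat.Partition m) : ℤ)

/-- `Σ p(m) x^m = ∏_{k ≥ 1} (1 + n_k x^k)` as formal power series (the infinite product converges
in the usual topology of formal power series; the value `n 0` plays no role). -/
def IsPowerProductExpansion (n : ℕ → ℤ) : Prop :=
  HasProd (fun k : ℕ => 1 + PowerSeries.C (n (k + 1)) * X ^ (k + 1)) partitionSeries

namespace Aux

theorem prod_sub_one (f : ℕ → ℤ⟦X⟧) (m : ℕ) (s : Finset ℕ) (h : ∀ i ∈ s, X ^ m ∣ f i - 1) :
    X ^ m ∣ ∏ i ∈ s, f i - 1 := by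
  classical
  induction s using Finset.induction_on with
  | empty => simp
  | insert a s ha ih =>
    rw [Finset.prod_insert ha]
    have h1 := h a (Finset.mem_insert_self a s)
    have h2 := ih (fun i hi => h i (Finset.mem_insert_of_mem hi))
    have h3 : f a * ∏ i ∈ s, f i - 1 = (f a - 1) * ∏ i ∈ s, f i + (∏ i ∈ s, f i - 1) := by ring
    rw [h3]
    exact dvd_add (h1.mul_right _) h2

theorem coeff_prod_stable (f : ℕ → ℤ⟦X⟧) (hf : ∀ i, X ^ (i + 1) ∣ f i - 1) (d : ℕ)
    (s : Finset ℕ) (hs : Finset.range d ⊆ s) :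
    coeff d (∏ i ∈ s, f i) = coeff d (∏ i ∈ Finset.range d, f i) := by
  classical
  rw [← Finset.prod_sdiff hs]
  have h1 : X ^ (d + 1) ∣ ∏ i ∈ s \ Finset.range d, f i - 1 := by
    apply prod_sub_one
    intro i hi
    rw [Finset.mem_sdiff, Finset.mem_range] at hi
    exact (pow_dvd_pow X (by omega)).trans (hf i)
  have h2 : (∏ i ∈ s \ Finset.range d, f i) * ∏ i ∈ Finset.range d, f i =
      ∏ i ∈ Finset.range d, f i +
        (∏ i ∈ s \ Finset.range d, f i - 1) * ∏ i ∈ Finset.range d, f i := by ring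
  rw [h2, map_add]
  have h3 := (X_pow_dvd_iff.1 (h1.mul_right (∏ i ∈ Finset.range d, f i))) d (Nat.lt_succ_self d)
  rw [h3, add_zero]

theorem coeff_eq_of_hasProd (f : ℕ → ℤ⟦X⟧) (hf : ∀ i, X ^ (i + 1) ∣ f i - 1) (P : ℤ⟦X⟧)
    (hP : HasProd f P) (d : ℕ) : coeff d (∏ i ∈ Finset.range d, f i) = coeff d P := by
  rw [HasProd, WithPiTopology.tendsto_iff_coeff_tendsto] at hP
  have h1 := hP d
  rw [nhds_discrete, Filter.tendsto_pure] at h1
  obtain ⟨s, hs, hs'⟩ := (h1.and (Filter.eventually_ge_atTop (Finset.range d))).exists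
  rw [← hs, coeff_prod_stable f hf d s hs']

theorem dvd_of_hasProd (f : ℕ → ℤ⟦X⟧) (hf : ∀ i, X ^ (i + 1) ∣ f i - 1) (P : ℤ⟦X⟧)
    (hP : HasProd f P) (N : ℕ) : X ^ (N + 1) ∣ ∏ i ∈ Finset.range N, f i - P := by
  rw [X_pow_dvd_iff]
  intro m hm
  rw [map_sub, coeff_prod_stable f hf m (Finset.range N) (by
    intro i; simp only [Finset.mem_range]; omega), coeff_eq_of_hasProd f hf P hP, sub_self]

/-- the factor of the Euler product -/
noncomputable def eul (i : ℕ) : ℤ⟦X⟧ := ∑' j : ℕ, X ^ ((i + 1) * j)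

theorem eul_mul (i : ℕ) : eul i * (1 - X ^ (i + 1)) = 1 := by
  unfold eul
  simp_rw [pow_mul]
  exact WithPiTopology.tsum_pow_mul_one_sub_of_constantCoeff_eq_zero (by simp)

theorem eul_sub (i : ℕ) : X ^ (i + 1) ∣ eul i - 1 := by
  refine ⟨eul i, ?_⟩
  have h := eul_mul i
  linear_combination h

theorem hasProd_eul : HasProd eul partitionSeries := by
  have h := Nat.Partition.hasProd_powerSeriesMk_card_restricted ℤ (fun _ => True)
  have h1 : partitionSeries =
      PowerSeries.mk fun m => ((Nat.Partition.restricted m (fun _ => True)).card : ℤ) := by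
    unfold partitionSeries
    congr 1
    funext m
    simp [Nat.Partition.restricted]
  rw [h1]
  exact h

/-- the geometric series `1/(1 + a X^k)` -/
noncomputable def geo (a : ℤ) (k : ℕ) : ℤ⟦X⟧ :=
  PowerSeries.mk fun m => if k ∣ m then (-a) ^ (m / k) else 0

theorem geo_mul (a : ℤ) (k : ℕ) (hk : 0 < k) : (1 + C a * X ^ k) * geo a k = 1 := by
  ext m
  rw [add_mul, one_mul, map_add, mul_assoc, coeff_C_mul, coeff_X_pow_mul', geo, coeff_mk, coeff_mk,
    coeff_one]
  by_cases hkm : k ≤ m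
  · rw [if_pos hkm, if_neg (by omega : ¬ m = 0)]
    by_cases hd : k ∣ m
    · rw [if_pos hd, if_pos (Nat.dvd_sub hd (dvd_refl k))]
      obtain ⟨c, rfl⟩ := hd
      have hc : c ≠ 0 := by rintro rfl; omega
      obtain ⟨e, rfl⟩ := Nat.exists_eq_succ_of_ne_zero hc
      rw [Nat.mul_div_cancel_left _ hk, Nat.mul_succ, Nat.add_sub_cancel,
        Nat.mul_div_cancel_left _ hk, pow_succ]
      ring
    · rw [if_neg hd, if_neg, mul_zero, add_zero]
      intro h
      apply hd
      have := Nat.dvd_add h (dvd_refl k)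
      rwa [Nat.sub_add_cancel hkm] at this
  · rw [if_neg hkm, mul_zero, add_zero]
    by_cases h0 : m = 0
    · subst h0; simp
    · rw [if_neg h0, if_neg]
      intro h
      exact hkm (Nat.le_of_dvd (Nat.pos_of_ne_zero h0) h)

/-- The operator `X d/dX`. -/
theorem dX_factor (a : ℤ) (k : ℕ) (hk : 0 < k) :
    X * d⁄dX ℤ (1 + C a * X ^ k) = (1 + C a * X ^ k) * ((k : ℤ⟦X⟧) * (1 - geo a k)) := by
  have h1 : X * d⁄dX ℤ (1 + C a * X ^ k) = (k : ℤ⟦X⟧) * (C a * X ^ k) := by
    obtain ⟨e, rfl⟩ : ∃ e, k = e + 1 := ⟨k - 1, by omega⟩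
    rw [map_add, Derivation.leibniz, Derivation.leibniz_pow]
    simp
    ring
  rw [h1]
  have h2 := geo_mul a k hk
  linear_combination (k : ℤ⟦X⟧) * h2

theorem dX_prod (u L : ℕ → ℤ⟦X⟧) (h : ∀ i, X * d⁄dX ℤ (u i) = u i * L i) (N : ℕ) :
    X * d⁄dX ℤ (∏ i ∈ Finset.range N, u i) =
      (∏ i ∈ Finset.range N, u i) * ∑ i ∈ Finset.range N, L i := by
  induction N with
  | zero => simp
  | succ n ih =>
    rw [Finset.prod_range_succ, Finset.sum_range_succ, Derivation.leibniz]
    simp only [smul_eq_mul]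
    have := h n
    linear_combination (∏ i ∈ Finset.range n, u i) * this + u n * ih

/-- the recursion -/
theorem divisor_sum (n : ℕ → ℤ) (hn : IsPowerProductExpansion n) (m : ℕ) (hm : 0 < m) :
    ∑ k ∈ m.divisors, (k : ℤ) * (-n k) ^ (m / k) = -∑ k ∈ m.divisors, (k : ℤ) := by
  set f : ℕ → ℤ⟦X⟧ := fun k => 1 + PowerSeries.C (n (k + 1)) * X ^ (k + 1) with hf
  set g : ℕ → ℤ⟦X⟧ := fun k => 1 + PowerSeries.C (-1) * X ^ (k + 1) with hg
  have hfd : ∀ i, X ^ (i + 1) ∣ f i - 1 := fun i => ⟨PowerSeries.C (n (i + 1)), by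
    simp only [hf]; ring⟩
  have h1 := dvd_of_hasProd f hfd _ hn m
  have h2 := dvd_of_hasProd eul eul_sub _ hasProd_eul m
  have h3 : (∏ i ∈ Finset.range m, eul i) * ∏ i ∈ Finset.range m, g i = 1 := by
    rw [← Finset.prod_mul_distrib]
    apply Finset.prod_eq_one
    intro i _
    have := eul_mul i
    simp only [hg]
    rw [map_neg, map_one]
    linear_combination this
  have h4 : X ^ (m + 1) ∣ ∏ i ∈ Finset.range m, (f i * g i) - 1 := by
    rw [Finset.prod_mul_distrib]
    have h5 := (dvd_sub h1 h2).mul_right (∏ i ∈ Finset.range m, g i)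
    have h6 : (∏ i ∈ Finset.range m, f i - partitionSeries -
        (∏ i ∈ Finset.range m, eul i - partitionSeries)) * ∏ i ∈ Finset.range m, g i =
        (∏ i ∈ Finset.range m, f i) * (∏ i ∈ Finset.range m, g i) - 1 := by
      linear_combination -h3
    rw [h6] at h5
    exact h5
  set U := ∏ i ∈ Finset.range m, (f i * g i) with hU
  set L : ℕ → ℤ⟦X⟧ := fun i => ((i + 1 : ℕ) : ℤ⟦X⟧) * (1 - geo (n (i + 1)) (i + 1)) +
    ((i + 1 : ℕ) : ℤ⟦X⟧) * (1 - geo (-1) (i + 1)) with hL
  have h7 : X * d⁄dX ℤ U = U * ∑ i ∈ Finset.range m, L i := by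
    apply dX_prod
    intro i
    have e1 := dX_factor (n (i + 1)) (i + 1) (Nat.succ_pos i)
    have e2 := dX_factor (-1) (i + 1) (Nat.succ_pos i)
    rw [Derivation.leibniz]
    simp only [smul_eq_mul, hf, hg, hL]
    linear_combination (1 + PowerSeries.C (n (i + 1)) * X ^ (i + 1)) * e2 +
      (1 + PowerSeries.C (-1) * X ^ (i + 1)) * e1
  have h8 : X ^ (m + 1) ∣ X * d⁄dX ℤ U := by
    obtain ⟨K, hK⟩ := h4
    have h9 : U = 1 + X ^ (m + 1) * K := by linear_combination hK
    refine ⟨X * d⁄dX ℤ K + ((m + 1 : ℕ) : ℤ⟦X⟧) * K, ?_⟩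
    rw [h9, map_add, Derivation.leibniz, Derivation.leibniz_pow]
    simp
    ring
  have h10 : X ^ (m + 1) ∣ ∑ i ∈ Finset.range m, L i := by
    rw [h7] at h8
    have h11 := dvd_sub h8 (h4.mul_right (∑ i ∈ Finset.range m, L i))
    have h12 : U * ∑ i ∈ Finset.range m, L i - (U - 1) * ∑ i ∈ Finset.range m, L i =
        ∑ i ∈ Finset.range m, L i := by ring
    rwa [h12] at h11
  have h13 := (X_pow_dvd_iff.1 h10) m (Nat.lt_succ_self m)
  rw [map_sum] at h13
  have h14 : ∀ (a : ℤ) (i : ℕ), coeff m (((i + 1 : ℕ) : ℤ⟦X⟧) * (1 - geo a (i + 1))) =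
      -(if (i + 1) ∣ m then ((i + 1 : ℕ) : ℤ) * (-a) ^ (m / (i + 1)) else 0) := by
    intro a i
    have e1 : ((i + 1 : ℕ) : ℤ⟦X⟧) = C ((i + 1 : ℕ) : ℤ) := by simp
    rw [e1, coeff_C_mul, map_sub, coeff_one, if_neg (by omega : ¬ m = 0), geo, coeff_mk]
    split_ifs <;> ring
  have h15 : ∀ i, coeff m (L i) =
      -(if (i + 1) ∣ m then ((i + 1 : ℕ) : ℤ) * (-n (i + 1)) ^ (m / (i + 1)) +
        ((i + 1 : ℕ) : ℤ) else 0) := by
    intro i
    simp only [hL]
    rw [map_add, h14, h14, neg_neg, one_pow, mul_one]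
    split_ifs <;> ring
  simp only [h15, Finset.sum_neg_distrib] at h13
  have h16 : ∑ i ∈ Finset.range m, (if (i + 1) ∣ m then
      ((i + 1 : ℕ) : ℤ) * (-n (i + 1)) ^ (m / (i + 1)) + ((i + 1 : ℕ) : ℤ) else 0) =
      ∑ k ∈ m.divisors, ((k : ℤ) * (-n k) ^ (m / k) + k) := by
    rw [Nat.divisors, Finset.sum_filter, Finset.sum_Ico_eq_sum_range]
    simp only [Nat.add_sub_cancel]
    refine Finset.sum_congr rfl fun i _ => ?_
    rw [add_comm 1 i]
  rw [h16, Finset.sum_add_distrib] at h13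
  linarith

theorem odd_one (n : ℕ → ℤ) (hn : IsPowerProductExpansion n) :
    ∀ m : ℕ, m % 2 = 1 → n m = 1 := by
  intro m
  induction m using Nat.strong_induction_on with
  | _ m ih =>
    intro hm
    have h := divisor_sum n hn m (by omega)
    rw [← Nat.insert_self_properDivisors (by omega), Finset.sum_insert Nat.self_notMem_properDivisors,
      Finset.sum_insert Nat.self_notMem_properDivisors, Nat.div_self (by omega), pow_one] at h
    have h1 : ∑ k ∈ m.properDivisors, (k : ℤ) * (-n k) ^ (m / k) =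
        -∑ k ∈ m.properDivisors, (k : ℤ) := by
      rw [← Finset.sum_neg_distrib]
      refine Finset.sum_congr rfl fun k hk => ?_
      rw [Nat.mem_properDivisors] at hk
      obtain ⟨⟨c, hc⟩, hlt⟩ := hk
      have hmo : Odd m := Nat.odd_iff.2 hm
      rw [hc, Nat.odd_mul] at hmo
      have hk0 : 0 < k := hmo.1.pos
      rw [ih k hlt (Nat.odd_iff.1 hmo.1), hc, Nat.mul_div_cancel_left _ hk0, hmo.2.neg_one_pow]
      ring
    rw [h1] at h
    have hm0 : (m : ℤ) ≠ 0 := by
      have : m ≠ 0 := by omega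
      exact_mod_cast this
    have h2 : (m : ℤ) * n m = m * 1 := by linarith
    exact mul_left_cancel₀ hm0 h2

theorem rec_even (n : ℕ → ℤ) (hn : IsPowerProductExpansion n) :
    Pool.Agent.V11197.PP.Rec (fun i => n (2 * i)) := by
  intro M hM
  have h := divisor_sum n hn (2 * M) (by omega)
  rw [← Finset.sum_filter_add_sum_filter_not (2 * M).divisors (fun k => k % 2 = 1)
    (fun k => (k : ℤ) * (-n k) ^ (2 * M / k))] at h
  have h1 : ∑ k ∈ (2 * M).divisors.filter (fun k => k % 2 = 1), (k : ℤ) * (-n k) ^ (2 * M / k) =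
      ∑ k ∈ (2 * M).divisors.filter (fun k => k % 2 = 1), (k : ℤ) := by
    refine Finset.sum_congr rfl fun k hk => ?_
    rw [Finset.mem_filter, Nat.mem_divisors] at hk
    obtain ⟨⟨⟨c, hc⟩, _⟩, hk1⟩ := hk
    have hce : Even c := by
      have : Even (k * c) := by rw [← hc]; exact even_two_mul M
      rcases Nat.even_mul.1 this with h3 | h3
      · rw [Nat.even_iff] at h3; omega
      · exact h3
    rw [odd_one n hn k hk1, hc, Nat.mul_div_cancel_left _ (by omega), hce.neg_one_pow, mul_one]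
  have h2 : ∑ k ∈ (2 * M).divisors.filter (fun k => ¬ k % 2 = 1),
      (k : ℤ) * (-n k) ^ (2 * M / k) =
      ∑ i ∈ M.divisors, 2 * (i : ℤ) * (-n (2 * i)) ^ (M / i) := by
    symm
    apply Finset.sum_nbij' (fun i => 2 * i) (fun k => k / 2)
    · intro i hi
      rw [Nat.mem_divisors] at hi
      rw [Finset.mem_filter, Nat.mem_divisors]
      exact ⟨⟨Nat.mul_dvd_mul_left 2 hi.1, by omega⟩, by omega⟩
    · intro k hk
      rw [Finset.mem_filter, Nat.mem_divisors] at hk
      rw [Nat.mem_divisors]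
      refine ⟨?_, by omega⟩
      obtain ⟨c, rfl⟩ : 2 ∣ k := by omega
      rw [Nat.mul_div_cancel_left _ (by norm_num)]
      exact Nat.dvd_of_mul_dvd_mul_left (by norm_num) hk.1.1
    · intro i _
      simp
    · intro k hk
      rw [Finset.mem_filter] at hk
      omega
    · intro i hi
      rw [Nat.mul_div_mul_left _ _ (by norm_num)]
      push_cast
      ring
  rw [h1, h2, ← Nat.insert_self_properDivisors hM.ne',
    Finset.sum_insert Nat.self_notMem_properDivisors, Nat.div_self hM, pow_one] at h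
  have h3 : Pool.Agent.V11197.PP.SS M =
      ∑ k ∈ (2 * M).divisors.filter (fun k => k % 2 = 1), (k : ℤ) +
        ∑ k ∈ (2 * M).divisors, (k : ℤ) := by
    unfold Pool.Agent.V11197.PP.SS
    rw [Finset.sum_filter, ← Finset.sum_add_distrib]
    refine Finset.sum_congr rfl fun k _ => ?_
    split_ifs <;> ring
  rw [h3]
  linarith

/-- the partial products of the expansion -/
noncomputable def part : ℕ → ℤ⟦X⟧
  | 0 => 1
  | N + 1 => part N * (1 + C ((Fintype.card (Nat.Partition (N + 1)) : ℤ) - coeff (N + 1) (part N)) *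
      X ^ (N + 1))

/-- the coefficients of the expansion -/
noncomputable def co : ℕ → ℤ
  | 0 => 0
  | N + 1 => (Fintype.card (Nat.Partition (N + 1)) : ℤ) - coeff (N + 1) (part N)

theorem part_eq (N : ℕ) :
    part N = ∏ k ∈ Finset.range N, (1 + PowerSeries.C (co (k + 1)) * X ^ (k + 1)) := by
  induction N with
  | zero => rfl
  | succ n ih =>
    rw [Finset.prod_range_succ, ← ih]
    rfl

theorem part_zero (N : ℕ) : coeff 0 (part N) = 1 := by
  induction N with
  | zero => simp [part]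
  | succ n ih =>
    rw [part, mul_add, mul_one, map_add, ih, ← mul_assoc, coeff_mul_X_pow', if_neg (by omega),
      add_zero]

theorem coeff_part (N : ℕ) : coeff N (part N) = (Fintype.card (Nat.Partition N) : ℤ) := by
  rcases N with _ | N
  · simp [part]
  · rw [part, mul_add, mul_one, map_add, ← mul_assoc, coeff_mul_X_pow', if_pos le_rfl,
      Nat.sub_self, coeff_mul_C, part_zero]
    ring

theorem exists_expansion : ∃ n : ℕ → ℤ, IsPowerProductExpansion n := by
  refine ⟨co, ?_⟩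
  rw [IsPowerProductExpansion, HasProd, WithPiTopology.tendsto_iff_coeff_tendsto]
  refine fun d => tendsto_atTop_of_eventually_const (i₀ := Finset.range d) (fun s hs => ?_)
  rw [coeff_prod_stable _ (fun i => ⟨PowerSeries.C (co (i + 1)), by ring⟩) d s hs, ← part_eq,
    coeff_part, partitionSeries, coeff_mk]

end Aux

open Aux

/-- **Main result.** The partition generating function has a power product expansion
`Σ p(m) x^m = ∏_{k ≥ 1} (1 + n_k x^k)` with integers `n_k`, and for every such expansion and every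
`k ≥ 1` one has `n_{8k+2} < 0`, `n_{8k+4} < 0`, `n_{8k+6} < 0` and `n_{8k} > 0`. -/
theorem result : (∃ n : ℕ → ℤ, IsPowerProductExpansion n) ∧
    ∀ n : ℕ → ℤ, IsPowerProductExpansion n → ∀ k : ℕ, 1 ≤ k →
      n (8 * k + 2) < 0 ∧ n (8 * k + 4) < 0 ∧ n (8 * k + 6) < 0 ∧ 0 < n (8 * k) := by
  refine ⟨exists_expansion, fun n hn k hk => ?_⟩
  have h := Pool.Agent.V11197.PP.signs _ (rec_even n hn)
  have h1 := (h (4 * k + 1) (by omega)).2 (by omega)
  have h2 := (h (4 * k + 2) (by omega)).2 (by omega)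
  have h3 := (h (4 * k + 3) (by omega)).2 (by omega)
  have h4 := (h (4 * k) (by omega)).1 (by omega)
  rw [show 2 * (4 * k + 1) = 8 * k + 2 by ring] at h1
  rw [show 2 * (4 * k + 2) = 8 * k + 4 by ring] at h2
  rw [show 2 * (4 * k + 3) = 8 * k + 6 by ring] at h3
  rw [show 2 * (4 * k) = 8 * k by ring] at h4
  exact ⟨h1, h2, h3, h4⟩

end Pool.Agent.Results.MP_f3871b_nt.SignPattern
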